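import Pool.Agent.Helper52.EHP.Defs

/-!
# Working definitions for the lower bound
All logarithms are `Real.log`, i.e. `log |x|`; at a node `t i` the summand is `0`, so the sublevel set
`EE` lists the nodes separately.
-/

open Real MeasureTheory Set

namespace EHP

variable {ι : Type*} [Fintype ι]

/-- potential `∑ c i log |x - t i|` -/
noncomputable def pot (c t : ι → ℝ) (x : ℝ) : ℝ := ∑ i, c i * log (x - t i)

/-- `{pot < 0}`, nodes included -/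
def EE (c t : ι → ℝ) : Set ℝ := {x | (∃ i, x = t i) ∨ pot c t x < 0}

/-- weighted point system in `[-1,1]` -/
structure Sys (c t : ι → ℝ) : Prop where
  pos : ∀ i, 0 < c i
  sum : ∑ i, c i = 1
  mem : ∀ i, t i ∈ Icc (-1 : ℝ) 1

/-- normalized system: `(a,b)` is the last component of `{pot < 0}`, all nodes in it are at `1`,
and the nodes in the component of `-1` (if `-1` is in `EE`; this component is `(-1-α,e)`) are at `-1`.
If `-1` is not in `EE` we put `e = -1` and `α = 0`. -/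
structure Nrm (c t : ι → ℝ) (a b m e α : ℝ) : Prop extends Sys c t where
  a_lo : -1 < a
  a_hi : a ≤ 0
  b_lo : 1 < b
  half : 1 / 2 ≤ m
  mass : m = ∑ i, if t i = 1 then c i else 0
  split : ∀ i, t i < a ∨ t i = 1
  pa : pot c t a = 0
  pb : pot c t b = 0
  neg : ∀ x ∈ Ioo a b, x ∈ EE c t
  e_lo : -1 ≤ e
  e_hi : e ≤ a
  α_lo : 0 ≤ α
  α_hi : α ≤ 1 + e
  e_not : ∀ i, t i ≠ e
  left : ∀ i, t i < e → t i = -1
  pe : -1 < e → pot c t e = 0 ∧ (∀ x ∈ Ioo (-1 - α) e, x ∈ EE c t) ∧ 0 < α ∧ pot c t (-1 - α) = 0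
  pe' : e = -1 → 0 ≤ pot c t (-1) ∧ α = 0

/-! ### the slit map -/

/-- `H = (q+1)/4 = 2k/(k+1)²`, the capacity of `J = [-1,q]` -/
noncomputable def H (k : ℝ) : ℝ := 2 * k / (k + 1) ^ 2

/-- `X k w = c₀ + (h/2)(w + 1/w) = -1 + H (w+1)²/w` -/
noncomputable def X (k w : ℝ) : ℝ := -1 + H k * (w + 1) ^ 2 / w

/-- `Λ = -log H` -/
noncomputable def Lam (k : ℝ) : ℝ := log ((k + 1) ^ 2 / (2 * k))

/-- `g(X w, 1) = log |(k w - 1)/(w - k)|` -/
noncomputable def gr (k w : ℝ) : ℝ := log ((k * w - 1) / (k - w))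

/-- `s_z`, `z = X k w` -/
noncomputable def ss (k w : ℝ) : ℝ := H k * (w - 1 / w)

/-- `Φ_z(m)`, `z = X k w` -/
noncomputable def Phi (k m w : ℝ) : ℝ :=
  (w + 1) / (w - 1) * (m * log k - Lam k) + log w - m * gr k w

/-- `y = √H (σ - 1/σ)`; the extra test point is `-1 - y² = X k (-σ²)` -/
noncomputable def yy (k σ : ℝ) : ℝ := √(H k) * (σ - 1 / σ)

/-- `S = √(1 + y²/(4H)) = (σ + 1/σ)/2` -/
noncomputable def SS (σ : ℝ) : ℝ := (σ + 1 / σ) / 2

/-- `Q(m,y)` -/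
noncomputable def QQ (k m σ : ℝ) : ℝ :=
  2 * log σ - m * log ((k * σ ^ 2 + 1) / (k + σ ^ 2)) + (m * log k - Lam k) * (σ ^ 2 - 1) / (σ ^ 2 + 1)

/-- `ρ = (2/π) R (w_b/s_b + w_a/s_a)`, `R = 2√H`, `a = X u`, `b = X v` -/
noncomputable def rho (k u v wa wb : ℝ) : ℝ := 2 / π * (2 * √(H k)) * (wb / ss k v + wa / ss k u)

/-- condition (B') -/
def HB (k ρ m a : ℝ) : Prop :=
  ∀ σ, 1 < σ → yy k σ / 2 ≤ ρ * (1 - m) →
    π * ρ * SS σ * QQ k m σ / (yy k σ / 2) ≤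
      2 * π * log 2 * SS σ + 1 - (1 + yy k σ ^ 2 / (a + 1)) / 5

/-- condition (C'), with `X = ρ (1-m)/U`, `U = y/2` -/
def HC (k ρ m a : ℝ) : Prop :=
  ∀ σ x, 1 < σ → x = ρ * (1 - m) / (yy k σ / 2) → 1 / 2 < x → x ≤ 1 →
    π * ρ * SS σ * QQ k m σ / (yy k σ / 2) ≤
      π * SS σ * (2 - 2 * x * (1 - log 2)) + 1 - (1 + yy k σ ^ 2 / (a + 1)) * x / 18

end EHP
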