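import Pool.Agent.Helper52.EHP.ChainReal

/-!
Module M7 (CHAIN) of MP_28e671_an, part 3: the case analysis.
-/

open Real MeasureTheory Set

namespace EHP

variable {ι : Type*} [Fintype ι]

theorem sqrt_sub_mul {l r : ℝ} (hl : 0 ≤ 1 + l) (hr : 0 ≤ 1 + r) :
    (√(1 + l) + √(1 + r)) * (√(1 + r) - √(1 + l)) = r - l := by
  have h1 := sq_sqrt hl
  have h2 := sq_sqrt hr
  nlinarith

/-- nonproblematic component: the weighted penalty is at most its length -/
theorem comp_small {c t : ι → ℝ} {a b m e α : ℝ} (N : Nrm c t a b m e α) {I : ℝ × ℝ} {ρ y : ℝ}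
    (hρ : 0 ≤ ρ) (hI : e ≤ I.1 ∧ I.1 < I.2 ∧ I.2 ≤ a ∧ pot c t I.1 = 0 ∧ pot c t I.2 = 0 ∧
        (∀ i, t i ≠ I.1) ∧ (∀ i, t i ≠ I.2) ∧ ∀ x ∈ Ioo I.1 I.2, x ∈ EE c t)
    (hsmall : ρ * mass c t I ≤ √(1 + I.1) + √(1 + I.2)) :
    ρ * (∫ x in √(1 + I.1)..√(1 + I.2), KK c t x * ph a y x) ≤ I.2 - I.1 := by
  obtain ⟨h1, h2, h3, h4, h5, h6, h7, h8⟩ := hI
  have ha : 0 < a + 1 := by linarith [N.a_lo]
  have he := N.e_lo
  have h := int_comp (a := a) (y := y) (C := 1) N.toSys (by linarith : -1 ≤ I.1) h2 h4 h5 h6 h7 h8 ha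
    zero_le_one (by
      intro x hx
      apply ph_le_one ha
      have hx0 : 0 ≤ x := (sqrt_nonneg _).trans hx.1.le
      have := (Real.lt_sqrt hx0).1 hx.2
      linarith)
  rw [one_mul] at h
  have hd : 0 ≤ √(1 + I.2) - √(1 + I.1) := sub_nonneg.2 (sqrt_le_sqrt (by linarith))
  calc ρ * (∫ x in √(1 + I.1)..√(1 + I.2), KK c t x * ph a y x)
      ≤ ρ * (mass c t I * (√(1 + I.2) - √(1 + I.1))) := mul_le_mul_of_nonneg_left h hρ
    _ = (ρ * mass c t I) * (√(1 + I.2) - √(1 + I.1)) := by ring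
    _ ≤ (√(1 + I.1) + √(1 + I.2)) * (√(1 + I.2) - √(1 + I.1)) := mul_le_mul_of_nonneg_right hsmall hd
    _ = I.2 - I.1 := sqrt_sub_mul (by linarith) (by linarith)

/-- `cy` bounds -/
theorem cy_bounds {a U : ℝ} (ha : 0 < a + 1) (hU : U ^ 2 ≤ a + 1) :
    1 ≤ 1 + (2 * U) ^ 2 / (a + 1) ∧ 1 + (2 * U) ^ 2 / (a + 1) ≤ 5 := by
  constructor
  · have : 0 ≤ (2 * U) ^ 2 / (a + 1) := by positivity
    linarith
  · have : (2 * U) ^ 2 / (a + 1) ≤ 4 := by
      rw [div_le_iff₀ ha]; nlinarith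
    linarith

/-- the statement of STAR for given data -/
def StarProp (c t : ι → ℝ) (a k m ρ Ψ : ℝ) : Prop :=
  ∀ σ, 1 ≤ σ → Ψ ≤ π / 2 * ρ * yy k σ * SS σ * (QQ k m σ - pot c t (-1 - yy k σ ^ 2))
      + ρ * ∫ x in (0:ℝ)..√(1 + a), KK c t x * ph a (yy k σ) x

theorem chain_core {c t : ι → ℝ} {a b m e α : ℝ} (N : Nrm c t a b m e α) {k ρ Ψ : ℝ} (hk : 1 < k)
    (hρ : 0 ≤ ρ) (hstar : StarProp c t a k m ρ Ψ) (hB : HB k ρ m a) (hC : HC k ρ m a)
    (S : Finset (ℝ × ℝ))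
    (h1 : ∀ I ∈ S, e ≤ I.1 ∧ I.1 < I.2 ∧ I.2 ≤ a ∧ pot c t I.1 = 0 ∧ pot c t I.2 = 0 ∧
        (∀ i, t i ≠ I.1) ∧ (∀ i, t i ≠ I.2) ∧ ∀ x ∈ Ioo I.1 I.2, x ∈ EE c t)
    (h2 : ∀ I ∈ S, ∀ J ∈ S, I ≠ J → I.2 ≤ J.1 ∨ J.2 ≤ I.1)
    (h3 : ∀ x, e < x → x < a → x ∈ EE c t → ∃ I ∈ S, x ∈ Ioo I.1 I.2) :
    Ψ ≤ (1 + e + α) + ∑ I ∈ S, (I.2 - I.1) := by
  classical
  have ha : 0 < a + 1 := by linarith [N.a_lo]
  have he := N.e_lo
  have hea := N.e_hi
  have hα := N.α_lo
  have hsplit := fun y => int_split N S (fun I hI => ⟨(h1 I hI).1, (h1 I hI).2.1, (h1 I hI).2.2.1⟩) h3 y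
  have hU1 : √(1 + e) ^ 2 = 1 + e := sq_sqrt (by linarith)
  by_cases hprob : ∃ I ∈ S, √(1 + I.1) + √(1 + I.2) < ρ * mass c t I
  · -- Case B
    obtain ⟨I0, hI0, hmax⟩ := (S.filter (fun I => √(1 + I.1) + √(1 + I.2) < ρ * mass c t I)).exists_max_image
      (fun I => I.2) (by obtain ⟨I, hI, h⟩ := hprob; exact ⟨I, Finset.mem_filter.2 ⟨hI, h⟩⟩)
    obtain ⟨hI0S, hI0p⟩ := Finset.mem_filter.1 hI0
    obtain ⟨g1, g2, g3, g4, g5, g6, g7, g8⟩ := h1 I0 hI0S
    set U : ℝ := √(1 + I0.2) with hUdef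
    set V : ℝ := √(1 + I0.1) with hVdef
    have hU : 0 < U := sqrt_pos.2 (by linarith)
    have hV : 0 ≤ V := sqrt_nonneg _
    have hVU : V ≤ U := sqrt_le_sqrt (by linarith)
    have hU2 : U ^ 2 = 1 + I0.2 := sq_sqrt (by linarith)
    have hV2 : V ^ 2 = 1 + I0.1 := sq_sqrt (by linarith)
    obtain ⟨σ, hσ, hy⟩ := exists_sigma hk (Y := 2 * U) (by linarith)
    have hs := hstar σ hσ.le
    rw [hy] at hs
    have hcy := cy_bounds ha (by rw [hU2]; linarith : U ^ 2 ≤ a + 1)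
    set cy : ℝ := 1 + (2 * U) ^ 2 / (a + 1) with hcydef
    -- left part and right part
    set L := S.filter (fun I => I.2 ≤ I0.2) with hL
    set Rt := S.filter (fun I => ¬ I.2 ≤ I0.2) with hRt
    have hsumS : ∀ f : ℝ × ℝ → ℝ, ∑ I ∈ S, f I = ∑ I ∈ L, f I + ∑ I ∈ Rt, f I := fun f =>
      (Finset.sum_filter_add_sum_filter_not S _ f).symm
    have hI0L : I0 ∈ L := Finset.mem_filter.2 ⟨hI0S, le_rfl⟩
    have hsumL : ∀ f : ℝ × ℝ → ℝ, ∑ I ∈ L, f I = f I0 + ∑ I ∈ L.erase I0, f I := fun f =>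
      (Finset.add_sum_erase L f hI0L).symm
    have hleft : ∀ I ∈ L.erase I0, I ∈ S ∧ I.2 ≤ I0.1 := by
      intro I hI
      obtain ⟨hne, hIL⟩ := Finset.mem_erase.1 hI
      obtain ⟨hIS, hI2⟩ := Finset.mem_filter.1 hIL
      refine ⟨hIS, ?_⟩
      rcases h2 I hIS I0 hI0S hne with h | h
      · exact h
      · exfalso; linarith [(h1 I hIS).2.1]
    have hphU : ∀ x, 0 ≤ x → x ≤ U → ph a (2 * U) x ≤ cy / 5 := fun x hx0 hx => ph_le ha hU hx0 hx
    -- bounds of the integrals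
    have bI0 : (∫ x in √(1 + I0.1)..√(1 + I0.2), KK c t x * ph a (2 * U) x) ≤
        cy / 5 * (mass c t I0 * (U - V)) := by
      apply int_comp N.toSys (by linarith) g2 g4 g5 g6 g7 g8 ha (by linarith [hcy.1])
      intro x hx
      exact hphU x ((sqrt_nonneg _).trans hx.1.le) hx.2.le
    have bleft : ∀ I ∈ L.erase I0, (∫ x in √(1 + I.1)..√(1 + I.2), KK c t x * ph a (2 * U) x) ≤
        cy / 5 * (2 * V * mass c t I) := by
      intro I hI
      obtain ⟨hIS, hIl⟩ := hleft I hI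
      obtain ⟨k1, k2, k3, k4, k5, k6, k7, k8⟩ := h1 I hIS
      have hIV : √(1 + I.2) ≤ V := sqrt_le_sqrt (by linarith)
      have h := int_comp (a := a) (y := 2 * U) (C := cy / 5) N.toSys (by linarith : -1 ≤ I.1) k2 k4 k5 k6
        k7 k8 ha (by linarith [hcy.1]) (by
          intro x hx
          exact hphU x ((sqrt_nonneg _).trans hx.1.le) (hx.2.le.trans (hIV.trans hVU)))
      refine h.trans ?_
      have hm := mass_nonneg N.toSys I
      have : 0 ≤ √(1 + I.1) := sqrt_nonneg _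
      apply mul_le_mul_of_nonneg_left _ (by linarith [hcy.1])
      show mass c t I * (√(1 + I.2) - √(1 + I.1)) ≤ 2 * V * mass c t I
      nlinarith
    have be : (∫ x in (0:ℝ)..√(1 + e), KK c t x * ph a (2 * U) x) ≤ cy / 5 * (2 * V * m1 c t) := by
      have heV : √(1 + e) ≤ V := sqrt_le_sqrt (by linarith)
      have h := int_left (y := 2 * U) (C := cy / 5) N (by linarith [hcy.1]) (by
          intro x hx
          exact hphU x hx.1.le (hx.2.le.trans (heV.trans hVU)))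
      refine h.trans ?_
      have hm := m1_nonneg N.toSys
      apply mul_le_mul_of_nonneg_left _ (by linarith [hcy.1])
      nlinarith [sqrt_nonneg (1 + e)]
    have bright : ∀ I ∈ Rt, ρ * (∫ x in √(1 + I.1)..√(1 + I.2), KK c t x * ph a (2 * U) x) ≤
        I.2 - I.1 := by
      intro I hI
      obtain ⟨hIS, hI2⟩ := Finset.mem_filter.1 hI
      apply comp_small N hρ (h1 I hIS)
      by_contra hc
      push Not at hc
      exact hI2 (hmax I (Finset.mem_filter.2 ⟨hIS, hc⟩))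
    set ML : ℝ := m1 c t + ∑ I ∈ L.erase I0, mass c t I with hML
    have hML0 : 0 ≤ ML := add_nonneg (m1_nonneg N.toSys) (Finset.sum_nonneg fun I _ => mass_nonneg N.toSys I)
    have hA : log 4 * (mass c t I0 + ML) ≤ pot c t (-1 - (2 * U) ^ 2) := by
      refine le_trans ?_ (pot_extra_right N.toSys hU hU2 g5 g7)
      apply mul_le_mul_of_nonneg_left _ (log_nonneg (by norm_num))
      have := mass_sum N L (r0 := I0.2) (by linarith)
        (fun I hI => ⟨(h1 I (Finset.mem_filter.1 hI).1).1, (Finset.mem_filter.1 hI).2⟩)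
        (fun I hI J hJ hne => h2 I (Finset.mem_filter.1 hI).1 J (Finset.mem_filter.1 hJ).1 hne)
      rw [hsumL] at this
      rw [hML]
      linarith
    have hUm : yy k σ / 2 ≤ ρ * (1 - m) := by
      rw [hy]
      have h5 : mass c t I0 ≤ 1 - m := mass_le N g3
      have h6 : ρ * mass c t I0 ≤ ρ * (1 - m) := mul_le_mul_of_nonneg_left h5 hρ
      linarith
    have hb := hB σ hσ hUm
    rw [hy, show 2 * U / 2 = U by ring] at hb
    have key := caseB_real (U := U) (V := V) (ρ := ρ) (M0 := mass c t I0) (ML := ML) (S := SS σ) (cy := cy)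
      (Q := QQ k m σ) (A := pot c t (-1 - (2 * U) ^ 2)) hU hV hVU hρ hML0 (one_le_SS hσ) hcy.1 hcy.2 hA
      (by linarith) hb
    have hint : ρ * (∫ x in (0:ℝ)..√(1 + a), KK c t x * ph a (2 * U) x) ≤
        ρ * (cy / 5 * (mass c t I0 * (U - V) + 2 * V * ML)) + ∑ I ∈ Rt, (I.2 - I.1) := by
      have e1 := mul_le_mul_of_nonneg_left (hsplit (2 * U)) hρ
      rw [hsumS, hsumL] at e1
      have e2 : ∑ I ∈ L.erase I0, (∫ x in √(1 + I.1)..√(1 + I.2), KK c t x * ph a (2 * U) x) ≤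
          cy / 5 * (2 * V * ∑ I ∈ L.erase I0, mass c t I) := by
        rw [Finset.mul_sum, Finset.mul_sum]
        exact Finset.sum_le_sum bleft
      have e3 : ρ * (∑ I ∈ Rt, (∫ x in √(1 + I.1)..√(1 + I.2), KK c t x * ph a (2 * U) x)) ≤
          ∑ I ∈ Rt, (I.2 - I.1) := by
        rw [Finset.mul_sum]
        exact Finset.sum_le_sum bright
      have e4 : (∫ x in (0:ℝ)..√(1 + e), KK c t x * ph a (2 * U) x) +
          ((∫ x in √(1 + I0.1)..√(1 + I0.2), KK c t x * ph a (2 * U) x) +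
          ∑ I ∈ L.erase I0, (∫ x in √(1 + I.1)..√(1 + I.2), KK c t x * ph a (2 * U) x)) ≤
          cy / 5 * (mass c t I0 * (U - V) + 2 * V * ML) := by
        rw [hML]
        calc _ ≤ cy / 5 * (2 * V * m1 c t) + (cy / 5 * (mass c t I0 * (U - V)) +
            cy / 5 * (2 * V * ∑ I ∈ L.erase I0, mass c t I)) := by
              gcongr
          _ = _ := by ring
      have e5 := mul_le_mul_of_nonneg_left e4 hρ
      linarith
    have hsum : (U ^ 2 - V ^ 2) + ∑ I ∈ Rt, (I.2 - I.1) ≤ (1 + e + α) + ∑ I ∈ S, (I.2 - I.1) := by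
      rw [hsumS, hsumL, hU2, hV2]
      have : 0 ≤ ∑ I ∈ L.erase I0, (I.2 - I.1) :=
        Finset.sum_nonneg fun I hI => by linarith [(h1 I (hleft I hI).1).2.1]
      linarith
    linarith
  · push Not at hprob
    have bS : ∀ y, ρ * (∑ I ∈ S, ∫ x in √(1 + I.1)..√(1 + I.2), KK c t x * ph a y x) ≤
        ∑ I ∈ S, (I.2 - I.1) := by
      intro y
      rw [Finset.mul_sum]
      exact Finset.sum_le_sum fun I hI => comp_small N hρ (h1 I hI) (hprob I hI)
    by_cases hleft : 1 + e + α < 2 * ρ * m1 c t * √(1 + e)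
    · -- Case C
      have he1 : -1 < e := by
        rcases eq_or_lt_of_le he with h | h
        · exfalso
          rw [← h] at hleft
          simp at hleft
          linarith
        · exact h
      obtain ⟨p1, p2, p3, p4⟩ := N.pe he1
      set U : ℝ := √(1 + e) with hUdef
      have hU : 0 < U := sqrt_pos.2 (by linarith)
      obtain ⟨σ, hσ, hy⟩ := exists_sigma hk (Y := 2 * U) (by linarith)
      have hs := hstar σ hσ.le
      rw [hy] at hs
      have hcy := cy_bounds ha (by rw [hU1]; linarith : U ^ 2 ≤ a + 1)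
      set cy : ℝ := 1 + (2 * U) ^ 2 / (a + 1) with hcydef
      have hA := pot_extra_left N.toSys hU p3 (by rw [hU1]; exact N.α_hi) p4
      have key := caseC_real (U := U) (α := α) (ρ := ρ) (M := m1 c t) (m := m) (S := SS σ) (cy := cy)
        (Q := QQ k m σ) (A := pot c t (-1 - (2 * U) ^ 2)) hU p3 (by rw [hU1]; exact N.α_hi) hρ
        (m1_nonneg N.toSys) (m1_le N) (one_le_SS hσ) hcy.1 hcy.2 hA (by rw [hU1]; exact hleft)
        (by
          intro hUm
          have hb := hB σ hσ (by rw [hy]; linarith)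
          rw [hy, show 2 * U / 2 = U by ring] at hb
          exact hb)
        (by
          intro x hx hx1 hx2
          have hc := hC σ x hσ (by rw [hy, show 2 * U / 2 = U by ring]; exact hx) hx1 hx2
          rw [hy, show 2 * U / 2 = U by ring] at hc
          exact hc)
      have bl := int_left' N he1 (y := 2 * U) (by linarith)
      have e1 := mul_le_mul_of_nonneg_left (hsplit (2 * U)) hρ
      have e2 := mul_le_mul_of_nonneg_left bl hρ
      have e3 := bS (2 * U)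
      rw [hU1] at key
      rw [mul_add] at e1
      linarith
    · -- Case A
      push Not at hleft
      have hs := hstar 1 le_rfl
      have hy : yy k 1 = 0 := by unfold yy; simp
      rw [hy] at hs
      have hl := int_left (y := 0) (C := 1) N zero_le_one (by
        intro x hx
        apply ph_le_one ha
        have := (Real.lt_sqrt hx.1.le).1 hx.2
        linarith)
      have e1 := mul_le_mul_of_nonneg_left (hsplit 0) hρ
      have e2 := mul_le_mul_of_nonneg_left hl hρ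
      have e3 := bS 0
      rw [mul_add] at e1
      have e4 : π / 2 * ρ * 0 * SS 1 * (QQ k m 1 - pot c t (-1 - 0 ^ 2)) = 0 := by ring
      rw [e4] at hs
      nlinarith

/-- **M7 CHAIN** (with STAR as a hypothesis). -/
theorem chain_of_star {c t : ι → ℝ} {a b m e α : ℝ} (N : Nrm c t a b m e α) {k ρ Ψ : ℝ} (hk : 1 < k)
    (hρ : 0 ≤ ρ) (hstar : StarProp c t a k m ρ Ψ) (hB : HB k ρ m a) (hC : HC k ρ m a) :
    b - a + Ψ ≤ (volume (EE c t)).toReal := by
  obtain ⟨S, h1, h2, h3⟩ := components N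
  have hv := volume_ge N S
    (fun I hI => ⟨(h1 I hI).1, (h1 I hI).2.1, (h1 I hI).2.2.1, (h1 I hI).2.2.2.2.2.2.2⟩) h2
  have hc := chain_core N hk hρ hstar hB hC S h1 h2 h3
  linarith

end EHP
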