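import Pool.Agent.Helper6.E38.Pen
import Pool.Agent.Helper6.E38.Comp

/-!
Module M7 (CHAIN) of MP_28e671_an, part 1: integrals of the negative part over components.
-/

open Real MeasureTheory Set

namespace EHP

variable {ι : Type*} [Fintype ι]

/-- negative part of the potential, `x ↦ -1 + x²` -/
noncomputable def KK (c t : ι → ℝ) (x : ℝ) : ℝ := max 0 (-pot c t (-1 + x ^ 2))

/-- the factor `c_y x²/(x²+y²)` -/
noncomputable def ph (a y x : ℝ) : ℝ := (1 + y ^ 2 / (a + 1)) * (x ^ 2 / (x ^ 2 + y ^ 2))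

theorem KK_nonneg (c t : ι → ℝ) (x : ℝ) : 0 ≤ KK c t x := le_max_left _ _

theorem ph_nonneg {a : ℝ} (ha : 0 < a + 1) (y x : ℝ) : 0 ≤ ph a y x := by
  unfold ph; positivity

theorem ph_le_one {a y x : ℝ} (ha : 0 < a + 1) (hx : x ^ 2 ≤ a + 1) : ph a y x ≤ 1 := by
  unfold ph
  rcases eq_or_ne (x ^ 2 + y ^ 2) 0 with h | h
  · rw [h]; simp
  · have hpos : 0 < x ^ 2 + y ^ 2 := lt_of_le_of_ne (by positivity) (Ne.symm h)
    rw [← mul_div_assoc, div_le_one hpos]
    have : y ^ 2 / (a + 1) * x ^ 2 ≤ y ^ 2 := by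
      rw [div_mul_eq_mul_div, div_le_iff₀ ha]
      nlinarith [sq_nonneg y]
    nlinarith

theorem ph_le {a U x : ℝ} (ha : 0 < a + 1) (hU : 0 < U) (hx0 : 0 ≤ x) (hx : x ≤ U) :
    ph a (2 * U) x ≤ (1 + (2 * U) ^ 2 / (a + 1)) / 5 := by
  unfold ph
  have h1 : x ^ 2 / (x ^ 2 + (2 * U) ^ 2) ≤ 1 / 5 := by
    rw [div_le_div_iff₀ (by positivity) (by norm_num)]
    nlinarith
  have h2 : 0 ≤ 1 + (2 * U) ^ 2 / (a + 1) := by positivity
  calc _ ≤ (1 + (2 * U) ^ 2 / (a + 1)) * (1 / 5) := by gcongr
    _ = _ := by ring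

theorem measurable_pot (c t : ι → ℝ) : Measurable (pot c t) := by
  unfold pot
  exact Finset.measurable_sum _ fun i _ => by fun_prop

theorem measurable_KK (c t : ι → ℝ) : Measurable (KK c t) := by
  unfold KK
  have := measurable_pot c t
  fun_prop

theorem measurable_ph (a y : ℝ) : Measurable (ph a y) := by
  unfold ph
  fun_prop

theorem integrable_KK (c t : ι → ℝ) (l r : ℝ) : IntervalIntegrable (KK c t) volume l r := by
  have h := (pot_intervalIntegrable c t l r).neg
  rw [intervalIntegrable_iff] at h ⊢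
  have := h.pos_part
  refine this.congr (ae_of_all _ fun x => ?_)
  simp only [KK, Pi.neg_apply]
  exact max_comm _ _

theorem ph_le_const {a : ℝ} (ha : 0 < a + 1) (y x : ℝ) : ph a y x ≤ 1 + y ^ 2 / (a + 1) := by
  unfold ph
  have h1 : x ^ 2 / (x ^ 2 + y ^ 2) ≤ 1 := by
    apply div_le_one_of_le₀
    · nlinarith [sq_nonneg y]
    · positivity
  have h2 : 0 ≤ 1 + y ^ 2 / (a + 1) := by positivity
  calc _ ≤ (1 + y ^ 2 / (a + 1)) * 1 := by gcongr
    _ = _ := by ring

theorem integrable_KKph (c t : ι → ℝ) {a : ℝ} (ha : 0 < a + 1) (y l r : ℝ) :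
    IntervalIntegrable (fun x => KK c t x * ph a y x) volume l r := by
  have h := (integrable_KK c t l r).const_mul (1 + y ^ 2 / (a + 1))
  rw [intervalIntegrable_iff] at h ⊢
  refine Integrable.mono' h ((measurable_KK c t).mul (measurable_ph a y)).aestronglyMeasurable
    (ae_of_all _ fun x => ?_)
  rw [Real.norm_eq_abs, abs_of_nonneg (mul_nonneg (KK_nonneg c t x) (ph_nonneg ha y x))]
  have := ph_le_const ha y x
  have := KK_nonneg c t x
  nlinarith

/-- on a component, `∫ K ≤ mass * length` -/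
theorem int_KK_comp {c t : ι → ℝ} (hS : Sys c t) {l r : ℝ} (hl : -1 ≤ l) (hlr : l < r)
    (pl : pot c t l = 0) (pr : pot c t r = 0) (nl : ∀ i, t i ≠ l) (nr : ∀ i, t i ≠ r)
    (hE : ∀ x ∈ Ioo l r, x ∈ EE c t) :
    (∫ x in √(1 + l)..√(1 + r), KK c t x) ≤
      (∑ i, if l < t i ∧ t i < r then c i else 0) * (√(1 + r) - √(1 + l)) := by
  refine le_trans (le_of_eq ?_) (penalty hS hl hlr pl pr nl nr)
  have hs : √(1 + l) ≤ √(1 + r) := sqrt_le_sqrt (by linarith)
  apply intervalIntegral.integral_congr_ae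
  have hfin : ({x : ℝ | ∃ i, x = √(1 + t i)} ∪ {√(1 + r)}).Finite := by
    apply Set.Finite.union _ (Set.finite_singleton _)
    have : {x : ℝ | ∃ i, x = √(1 + t i)} = Set.range (fun i => √(1 + t i)) := by
      ext x; simp [eq_comm]
    rw [this]
    exact Set.finite_range _
  filter_upwards [hfin.countable.ae_notMem volume] with x hx hx2
  rw [uIoc_of_le hs] at hx2
  simp only [Set.mem_union, mem_ofPred_eq, Set.mem_singleton_iff, not_or, not_exists] at hx
  have hx0 : 0 ≤ x := (sqrt_nonneg _).trans hx2.1.le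
  have hxr : x < √(1 + r) := lt_of_le_of_ne hx2.2 hx.2
  have h1 : l < -1 + x ^ 2 := by
    have := (Real.sqrt_lt' (lt_of_le_of_lt (sqrt_nonneg _) hx2.1)).1 hx2.1
    linarith
  have h2 : -1 + x ^ 2 < r := by
    have := (Real.lt_sqrt hx0).1 hxr
    linarith
  have h3 := hE _ ⟨h1, h2⟩
  have h4 : pot c t (-1 + x ^ 2) < 0 := by
    rcases h3 with ⟨i, hi⟩ | h
    · exfalso
      apply hx.1 i
      rw [← hi, show 1 + (-1 + x ^ 2) = x ^ 2 by ring, Real.sqrt_sq hx0]
    · exact h
  unfold KK
  exact max_eq_right (by linarith)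

/-- weighted version -/
theorem int_comp {c t : ι → ℝ} (hS : Sys c t) {l r : ℝ} (hl : -1 ≤ l) (hlr : l < r)
    (pl : pot c t l = 0) (pr : pot c t r = 0) (nl : ∀ i, t i ≠ l) (nr : ∀ i, t i ≠ r)
    (hE : ∀ x ∈ Ioo l r, x ∈ EE c t) {a y C : ℝ} (ha : 0 < a + 1) (hC : 0 ≤ C)
    (hph : ∀ x ∈ Ioo (√(1 + l)) (√(1 + r)), ph a y x ≤ C) :
    (∫ x in √(1 + l)..√(1 + r), KK c t x * ph a y x) ≤
      C * ((∑ i, if l < t i ∧ t i < r then c i else 0) * (√(1 + r) - √(1 + l))) := by
  have hs : √(1 + l) ≤ √(1 + r) := sqrt_le_sqrt (by linarith)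
  have h1 : (∫ x in √(1 + l)..√(1 + r), KK c t x * ph a y x) ≤
      ∫ x in √(1 + l)..√(1 + r), C * KK c t x := by
    apply intervalIntegral.integral_mono_on_of_le_Ioo hs (integrable_KKph c t ha y _ _)
      ((integrable_KK c t _ _).const_mul C)
    intro x hx
    have := hph x hx
    have := KK_nonneg c t x
    nlinarith
  refine h1.trans ?_
  rw [intervalIntegral.integral_const_mul]
  have := int_KK_comp hS hl hlr pl pr nl nr hE
  gcongr

/-- mass at `-1` -/
noncomputable def m1 (c t : ι → ℝ) : ℝ := ∑ i, if t i = -1 then c i else 0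

theorem m1_nonneg {c t : ι → ℝ} (hS : Sys c t) : 0 ≤ m1 c t := by
  unfold m1
  apply Finset.sum_nonneg
  intro i _
  split_ifs
  · exact (hS.pos i).le
  · exact le_rfl

theorem log_nonneg_of {U x : ℝ} (hx : 0 < x) (hxU : x < U) : 0 ≤ log (U / x) := by
  apply log_nonneg
  rw [le_div_iff₀ hx]
  linarith

theorem intervalIntegrable_log_div {U : ℝ} (hU : 0 < U) :
    IntervalIntegrable (fun x : ℝ => log (U / x)) volume 0 U := by
  have h : IntervalIntegrable (fun u : ℝ => log U - log u) volume 0 U :=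
    (by simp : IntervalIntegrable (fun _ : ℝ => log U) volume 0 U).sub
      intervalIntegral.intervalIntegrable_log'
  rw [intervalIntegrable_iff] at h ⊢
  apply h.congr_fun _ measurableSet_uIoc
  intro x hx
  rw [uIoc_of_le hU.le] at hx
  exact (log_div hU.ne' hx.1.ne').symm

theorem KK_le_left {c t : ι → ℝ} {a b m e α : ℝ} (N : Nrm c t a b m e α) (he : -1 < e) {x : ℝ}
    (hx : 0 < x) (hx' : x < √(1 + e)) : KK c t x ≤ 2 * m1 c t * log (√(1 + e) / x) := by
  unfold KK
  apply max_le
  · have := m1_nonneg N.toSys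
    have := log_nonneg_of hx hx'
    positivity
  · exact penalty_left N he hx hx'

/-- the component of `-1`, constant factor -/
theorem int_left {c t : ι → ℝ} {a b m e α : ℝ} (N : Nrm c t a b m e α) {y C : ℝ} (hC : 0 ≤ C)
    (hph : ∀ x ∈ Ioo 0 (√(1 + e)), ph a y x ≤ C) :
    (∫ x in (0:ℝ)..√(1 + e), KK c t x * ph a y x) ≤ C * (2 * m1 c t * √(1 + e)) := by
  have ha : 0 < a + 1 := by linarith [N.a_lo]
  rcases eq_or_lt_of_le N.e_lo with h | h
  · rw [← h]; simp
  · have hU : 0 < √(1 + e) := sqrt_pos.2 (by linarith)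
    have h1 : (∫ x in (0:ℝ)..√(1 + e), KK c t x * ph a y x) ≤
        ∫ x in (0:ℝ)..√(1 + e), (C * (2 * m1 c t)) * log (√(1 + e) / x) := by
      apply intervalIntegral.integral_mono_on_of_le_Ioo hU.le (integrable_KKph c t ha y _ _)
        ((intervalIntegrable_log_div hU).const_mul _)
      intro x hx
      have h2 := hph x hx
      have h3 := KK_nonneg c t x
      have h4 := KK_le_left N h hx.1 hx.2
      have h5 := ph_nonneg ha y x
      calc KK c t x * ph a y x ≤ KK c t x * C := by gcongr
        _ ≤ (2 * m1 c t * log (√(1 + e) / x)) * C := by gcongr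
        _ = _ := by ring
    refine h1.trans (le_of_eq ?_)
    rw [intervalIntegral.integral_const_mul, int_log_left hU]
    ring

/-- the component of `-1`, refined factor -/
theorem int_left' {c t : ι → ℝ} {a b m e α : ℝ} (N : Nrm c t a b m e α) (he : -1 < e) {y : ℝ}
    (hy : 0 < y) :
    (∫ x in (0:ℝ)..√(1 + e), KK c t x * ph a y x) ≤
      (1 + y ^ 2 / (a + 1)) * (2 * m1 c t) * (√(1 + e) ^ 3 / (9 * y ^ 2)) := by
  have ha : 0 < a + 1 := by linarith [N.a_lo]
  have hU : 0 < √(1 + e) := sqrt_pos.2 (by linarith)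
  have hc : 0 ≤ 1 + y ^ 2 / (a + 1) := by positivity
  have hm := m1_nonneg N.toSys
  have h1 : (∫ x in (0:ℝ)..√(1 + e), KK c t x * ph a y x) ≤
      ∫ x in (0:ℝ)..√(1 + e), ((1 + y ^ 2 / (a + 1)) * (2 * m1 c t)) *
        (log (√(1 + e) / x) * (x ^ 2 / (x ^ 2 + y ^ 2))) := by
    apply intervalIntegral.integral_mono_on_of_le_Ioo hU.le (integrable_KKph c t ha y _ _)
    · apply IntervalIntegrable.const_mul
      apply (intervalIntegrable_log_div hU).mul_continuousOn
      apply Continuous.continuousOn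
      exact Continuous.div (by fun_prop) (by fun_prop) (fun u => by positivity)
    intro x hx
    have h4 := KK_le_left N he hx.1 hx.2
    have h5 : 0 ≤ x ^ 2 / (x ^ 2 + y ^ 2) := by positivity
    unfold ph
    calc KK c t x * ((1 + y ^ 2 / (a + 1)) * (x ^ 2 / (x ^ 2 + y ^ 2)))
        ≤ (2 * m1 c t * log (√(1 + e) / x)) * ((1 + y ^ 2 / (a + 1)) * (x ^ 2 / (x ^ 2 + y ^ 2))) := by
          gcongr
      _ = _ := by ring
  refine h1.trans ?_
  rw [intervalIntegral.integral_const_mul]
  exact mul_le_mul_of_nonneg_left (int_log_left' hU hy) (by positivity)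

/-- splitting the integral over `(0,√(1+a))` into the components -/
theorem int_split {c t : ι → ℝ} {a b m e α : ℝ} (N : Nrm c t a b m e α) (S : Finset (ℝ × ℝ))
    (h1 : ∀ I ∈ S, e ≤ I.1 ∧ I.1 < I.2 ∧ I.2 ≤ a)
    (h3 : ∀ x, e < x → x < a → x ∈ EE c t → ∃ I ∈ S, x ∈ Ioo I.1 I.2) (y : ℝ) :
    (∫ x in (0:ℝ)..√(1 + a), KK c t x * ph a y x) ≤
      (∫ x in (0:ℝ)..√(1 + e), KK c t x * ph a y x) +
        ∑ I ∈ S, ∫ x in √(1 + I.1)..√(1 + I.2), KK c t x * ph a y x := by
  have ha : 0 < a + 1 := by linarith [N.a_lo]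
  set f : ℝ → ℝ := fun x => KK c t x * ph a y x with hf
  have hfnn : ∀ x, 0 ≤ f x := fun x => mul_nonneg (KK_nonneg c t x) (ph_nonneg ha y x)
  have hint : ∀ l r, 0 ≤ r - l → IntegrableOn f (Ioc l r) := by
    intro l r hlr
    have := integrable_KKph c t ha y l r
    rw [intervalIntegrable_iff, uIoc_of_le (by linarith)] at this
    exact this
  have hs : ∀ I ∈ S, √(1 + I.1) ≤ √(1 + I.2) := fun I hI => sqrt_le_sqrt (by linarith [(h1 I hI).2.1])
  have e1 : (∫ x in (0:ℝ)..√(1 + a), f x) = ∫ x, (Ioc 0 (√(1 + a))).indicator f x := by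
    rw [intervalIntegral.integral_of_le (sqrt_nonneg _), integral_indicator measurableSet_Ioc]
  have e2 : (∫ x in (0:ℝ)..√(1 + e), f x) = ∫ x, (Ioc 0 (√(1 + e))).indicator f x := by
    rw [intervalIntegral.integral_of_le (sqrt_nonneg _), integral_indicator measurableSet_Ioc]
  have e3 : ∑ I ∈ S, (∫ x in √(1 + I.1)..√(1 + I.2), f x) =
      ∫ x, ∑ I ∈ S, (Ioc (√(1 + I.1)) (√(1 + I.2))).indicator f x := by
    rw [integral_finsetSum]
    · apply Finset.sum_congr rfl
      intro I hI
      rw [intervalIntegral.integral_of_le (hs I hI), integral_indicator measurableSet_Ioc]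
    · intro I hI
      exact (hint _ _ (by linarith [hs I hI])).integrable_indicator measurableSet_Ioc
  rw [e1, e2, e3, ← integral_add]
  · apply integral_mono
    · exact (hint _ _ (by linarith [sqrt_nonneg (1 + a)])).integrable_indicator measurableSet_Ioc
    · apply Integrable.add
      · exact (hint _ _ (by linarith [sqrt_nonneg (1 + e)])).integrable_indicator measurableSet_Ioc
      · apply integrable_finsetSum
        intro I hI
        exact (hint _ _ (by linarith [hs I hI])).integrable_indicator measurableSet_Ioc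
    · intro x
      simp only
      have hnn : 0 ≤ ∑ I ∈ S, (Ioc (√(1 + I.1)) (√(1 + I.2))).indicator f x :=
        Finset.sum_nonneg fun I _ => indicator_nonneg (fun x _ => hfnn x) x
      have hnn1 : 0 ≤ (Ioc 0 (√(1 + e))).indicator f x := indicator_nonneg (fun x _ => hfnn x) x
      by_cases hx : x ∈ Ioc 0 (√(1 + a))
      · rw [indicator_of_mem hx]
        by_cases hxe : x ≤ √(1 + e)
        · rw [indicator_of_mem (show x ∈ Ioc 0 (√(1 + e)) from ⟨hx.1, hxe⟩)]
          linarith
        · push Not at hxe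
          by_cases hK : pot c t (-1 + x ^ 2) < 0
          · have hx1 : e < -1 + x ^ 2 := by
              have := (Real.sqrt_lt' hx.1).1 hxe
              linarith
            have hx2 : -1 + x ^ 2 ≤ a := by
              have := (Real.le_sqrt hx.1.le (by linarith)).1 hx.2
              linarith
            have hx3 : -1 + x ^ 2 < a := by
              apply lt_of_le_of_ne hx2
              intro h
              rw [h, N.pa] at hK
              exact lt_irrefl _ hK
            obtain ⟨I, hI, hxI⟩ := h3 _ hx1 hx3 (Or.inr hK)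
            have hmem : x ∈ Ioc (√(1 + I.1)) (√(1 + I.2)) := by
              constructor
              · rw [Real.sqrt_lt' hx.1]; linarith [hxI.1]
              · apply Real.le_sqrt_of_sq_le; linarith [hxI.2]
            have h5 : f x ≤ ∑ I ∈ S, (Ioc (√(1 + I.1)) (√(1 + I.2))).indicator f x := by
              have h6 : f x = (Ioc (√(1 + I.1)) (√(1 + I.2))).indicator f x := by
                rw [indicator_of_mem hmem]
              rw [h6]
              exact Finset.single_le_sum (f := fun I : ℝ × ℝ =>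
                (Ioc (√(1 + I.1)) (√(1 + I.2))).indicator f x)
                (fun J _ => indicator_nonneg (fun x _ => hfnn x) x) hI
            linarith
          · have : f x = 0 := by
              have : KK c t x = 0 := by
                unfold KK
                exact max_eq_left (by linarith)
              simp [hf, this]
            rw [this]
            linarith
      · rw [indicator_of_notMem hx]
        linarith
  · exact (hint _ _ (by linarith [sqrt_nonneg (1 + e)])).integrable_indicator measurableSet_Ioc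
  · apply integrable_finsetSum
    intro I hI
    exact (hint _ _ (by linarith [hs I hI])).integrable_indicator measurableSet_Ioc

end EHP
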