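import Pool.Agent.Helper52.EHP.ChainInt

/-!
Module M7 (CHAIN) of MP_28e671_an, part 2: real inequalities, masses, values of the potential at the
extra test point.
-/

open Real MeasureTheory Set

namespace EHP

variable {ι : Type*} [Fintype ι]

theorem pi_log4 {S : ℝ} (hS : 1 ≤ S) : 4 ≤ 2 * π * log 2 * S := by
  have h1 : (3.14 : ℝ) < π := Real.pi_gt_d2
  have h2 : (0.69 : ℝ) < log 2 := by have := Real.log_two_gt_d9; linarith
  have h3 : (2.16 : ℝ) < π * log 2 := by nlinarith
  nlinarith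

theorem caseB_real {U V ρ M0 ML S cy Q A : ℝ} (hU : 0 < U) (hV : 0 ≤ V) (hVU : V ≤ U) (hρ : 0 ≤ ρ)
    (hML : 0 ≤ ML) (hS : 1 ≤ S) (hcy : 1 ≤ cy) (hcy5 : cy ≤ 5)
    (hA : log 4 * (M0 + ML) ≤ A) (hM : U + V ≤ ρ * M0)
    (hB : π * ρ * S * Q / U ≤ 2 * π * log 2 * S + 1 - cy / 5) :
    π / 2 * ρ * (2 * U) * S * (Q - A) + ρ * (cy / 5 * (M0 * (U - V) + 2 * V * ML)) ≤ U ^ 2 - V ^ 2 := by
  have hpi : 0 < π := pi_pos
  have hB4 := pi_log4 hS
  have hlog : log 4 = 2 * log 2 := by
    rw [show (4 : ℝ) = 2 ^ 2 by norm_num, Real.log_pow]; norm_num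
  set B : ℝ := 2 * π * log 2 * S with hBdef
  rw [div_le_iff₀ hU] at hB
  have h1 : π * ρ * U * S * Q ≤ U ^ 2 * (B + 1 - cy / 5) := by nlinarith
  have h2 : ρ * U * B * (M0 + ML) ≤ π * ρ * U * S * A := by
    have : π * ρ * U * S * (log 4 * (M0 + ML)) ≤ π * ρ * U * S * A := by
      apply mul_le_mul_of_nonneg_left hA
      have : 0 ≤ S := by linarith
      positivity
    rw [hlog] at this
    calc _ = π * ρ * U * S * (2 * log 2 * (M0 + ML)) := by rw [hBdef]; ring
      _ ≤ _ := this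
  have h3 : ρ * ML * (-(U * B) + 2 * cy / 5 * V) ≤ 0 := by
    apply mul_nonpos_of_nonneg_of_nonpos (by positivity)
    nlinarith
  have h4 : ρ * M0 * (-(U * B) + cy / 5 * (U - V)) ≤ (U + V) * (-(U * B) + cy / 5 * (U - V)) := by
    apply mul_le_mul_of_nonpos_right hM
    nlinarith
  have h5 : V ^ 2 ≤ cy / 5 * V ^ 2 + U * V * B := by
    have : 4 * V ^ 2 ≤ U * V * B := by
      have : V * V ≤ U * V := mul_le_mul_of_nonneg_right hVU hV
      nlinarith
    nlinarith [sq_nonneg V]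
  nlinarith

/-- `-log s ≥ 2(1-s)/(1+s)` for `0 < s ≤ 1` -/
theorem neg_log_ge {s : ℝ} (hs : 0 < s) (hs1 : s ≤ 1) : 2 * (1 - s) / (1 + s) ≤ -log s := by
  have h := E38.two_mul_sub_le_log hs hs1
  rw [div_le_iff₀ (by linarith)]
  simp only [log_one] at h
  nlinarith

theorem caseC_real {U α ρ M m S cy Q A : ℝ} (hU : 0 < U) (hα : 0 < α) (hαU : α ≤ U ^ 2) (hρ : 0 ≤ ρ)
    (_hM0 : 0 ≤ M) (hMm : M ≤ 1 - m) (hS : 1 ≤ S) (hcy : 1 ≤ cy) (hcy5 : cy ≤ 5)
    (hA : M * (log 4 + log (U ^ 2 / α)) ≤ A) (hM : U ^ 2 + α < 2 * ρ * M * U)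
    (hB : U ≤ ρ * (1 - m) → π * ρ * S * Q / U ≤ 2 * π * log 2 * S + 1 - cy / 5)
    (hC : ∀ x, x = ρ * (1 - m) / U → 1 / 2 < x → x ≤ 1 →
      π * ρ * S * Q / U ≤ π * S * (2 - 2 * x * (1 - log 2)) + 1 - cy * x / 18) :
    π / 2 * ρ * (2 * U) * S * (Q - A) + ρ * (cy * (2 * M) * (U ^ 3 / (9 * (2 * U) ^ 2))) ≤ U ^ 2 + α := by
  have hpi : 0 < π := pi_pos
  have hB4 := pi_log4 hS
  have hlog : log 4 = 2 * log 2 := by
    rw [show (4 : ℝ) = 2 ^ 2 by norm_num, Real.log_pow]; norm_num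
  have hl2 : 0 < log 2 := log_pos (by norm_num)
  have hl2' : log 2 < 1 := by have := Real.log_two_lt_d9; linarith
  have hS0 : 0 ≤ S := by linarith
  set r : ℝ := α / U ^ 2 with hr
  have hr0 : 0 < r := by positivity
  have hr1 : r ≤ 1 := by rw [hr, div_le_one (by positivity)]; exact hαU
  have hlr : log (U ^ 2 / α) = -log r := by rw [hr, ← log_inv, inv_div]
  set x : ℝ := ρ * M / U with hx
  have hxr : 1 + r < 2 * x := by
    rw [hr, hx]
    have e1 : 1 + α / U ^ 2 = (U ^ 2 + α) / U ^ 2 := by field_simp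
    have e2 : 2 * (ρ * M / U) = (2 * ρ * M * U) / U ^ 2 := by field_simp
    rw [e1, e2]
    gcongr
  have hx12 : 1 / 2 < x := by linarith
  have hlogr : 0 ≤ -log r := by
    have := log_nonpos hr0.le hr1
    linarith
  set G : ℝ := π * ρ * S * Q / U with hG
  -- key lower bound on π S x (2 log 2 - log r)
  have key : x ≤ 1 → π * S * (2 - 2 * x * (1 - log 2)) ≤ π * S * (x * (2 * log 2 + -log r)) := by
    intro hx1
    apply mul_le_mul_of_nonneg_left _ (by positivity)
    have h1 := neg_log_ge hr0 hr1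
    have h2 : 2 * (1 - x) / x ≤ 2 * (1 - r) / (1 + r) := by
      rw [div_le_div_iff₀ (by linarith) (by linarith)]
      nlinarith
    have h3 : 2 * (1 - x) ≤ x * -log r := by
      have h4 : 2 * (1 - x) / x ≤ -log r := h2.trans h1
      rw [div_le_iff₀ (by linarith)] at h4
      linarith
    nlinarith
  -- main inequality, divided by U^2
  have main : G - π * S * (x * (2 * log 2 + -log r)) + cy * x / 18 ≤ 1 + r := by
    by_cases hcase : U ≤ ρ * (1 - m)
    · have hb := hB hcase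
      rcases le_total x 1 with hx1 | hx1
      · have hk := key hx1
        have h1 : 2 * π * log 2 * S ≤ π * S * (2 - 2 * x * (1 - log 2)) := by
          have : 2 * log 2 ≤ 2 - 2 * x * (1 - log 2) := by nlinarith
          calc 2 * π * log 2 * S = π * S * (2 * log 2) := by ring
            _ ≤ _ := mul_le_mul_of_nonneg_left this (by positivity)
        have h2 : cy * x / 18 ≤ cy / 5 := by
          have : cy * x ≤ cy * 1 := mul_le_mul_of_nonneg_left hx1 (by linarith)
          linarith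
        linarith
      · have h1 : 0 ≤ π * S * (x * -log r) := by
          have : 0 ≤ x := by linarith
          positivity
        have h2 : (x - 1) * (cy / 18 - 2 * π * log 2 * S) ≤ 0 := by
          apply mul_nonpos_of_nonneg_of_nonpos (by linarith)
          linarith
        have h3 : π * S * (x * (2 * log 2 + -log r)) = x * (2 * π * log 2 * S) + π * S * (x * -log r) := by
          ring
        rw [h3]
        nlinarith
    · push Not at hcase
      have hxb : x ≤ ρ * (1 - m) / U := by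
        rw [hx]; gcongr
      have hxb1 : ρ * (1 - m) / U ≤ 1 := by rw [div_le_one hU]; exact hcase.le
      have hc := hC (ρ * (1 - m) / U) rfl (by linarith) hxb1
      have hk := key (by linarith)
      set z := ρ * (1 - m) / U with hz
      have h1 : π * S * (2 - 2 * z * (1 - log 2)) ≤ π * S * (2 - 2 * x * (1 - log 2)) := by
        apply mul_le_mul_of_nonneg_left _ (by positivity)
        nlinarith
      have h2 : cy * x / 18 ≤ cy * z / 18 := by
        have : cy * x ≤ cy * z := mul_le_mul_of_nonneg_left hxb (by linarith)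
        linarith
      linarith
  -- multiply by U^2
  have e1 : π / 2 * ρ * (2 * U) * S * Q = G * U ^ 2 := by rw [hG]; field_simp
  have e2 : ρ * (cy * (2 * M) * (U ^ 3 / (9 * (2 * U) ^ 2))) = cy * x / 18 * U ^ 2 := by
    rw [hx]; field_simp; ring
  have e3 : π / 2 * ρ * (2 * U) * S * (M * (log 4 + log (U ^ 2 / α))) =
      π * S * (x * (2 * log 2 + -log r)) * U ^ 2 := by
    rw [hlog, hlr, hx]; field_simp
  have e4 : U ^ 2 + α = (1 + r) * U ^ 2 := by rw [hr]; field_simp
  have h5 : π / 2 * ρ * (2 * U) * S * (M * (log 4 + log (U ^ 2 / α))) ≤ π / 2 * ρ * (2 * U) * S * A :=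
    mul_le_mul_of_nonneg_left hA (by positivity)
  rw [e3] at h5
  rw [mul_sub, e1, e2, e4]
  nlinarith [mul_le_mul_of_nonneg_right main (by positivity : (0:ℝ) ≤ U ^ 2)]

/-! ### masses -/

noncomputable def mass (c t : ι → ℝ) (I : ℝ × ℝ) : ℝ := ∑ i, if I.1 < t i ∧ t i < I.2 then c i else 0

theorem mass_nonneg {c t : ι → ℝ} (hS : Sys c t) (I : ℝ × ℝ) : 0 ≤ mass c t I := by
  unfold mass
  apply Finset.sum_nonneg
  intro i _
  split_ifs
  · exact (hS.pos i).le
  · exact le_rfl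

theorem one_sub_m {c t : ι → ℝ} {a b m e α : ℝ} (N : Nrm c t a b m e α) :
    1 - m = ∑ i, if t i = 1 then 0 else c i := by
  have h : (1 : ℝ) - m = ∑ i, c i - ∑ i, (if t i = 1 then c i else 0) := by rw [N.sum, ← N.mass]
  rw [h, ← Finset.sum_sub_distrib]
  apply Finset.sum_congr rfl
  intro i _
  split_ifs <;> simp

theorem mass_le {c t : ι → ℝ} {a b m e α : ℝ} (N : Nrm c t a b m e α) {I : ℝ × ℝ} (hI : I.2 ≤ a) :
    mass c t I ≤ 1 - m := by
  rw [one_sub_m N]
  unfold mass
  apply Finset.sum_le_sum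
  intro i _
  have := (N.pos i).le
  have := N.a_hi
  split_ifs with h1 h2
  · linarith [h1.2]
  · exact le_rfl
  · exact le_rfl
  · exact (N.pos i).le

theorem m1_le {c t : ι → ℝ} {a b m e α : ℝ} (N : Nrm c t a b m e α) : m1 c t ≤ 1 - m := by
  rw [one_sub_m N]
  unfold m1
  apply Finset.sum_le_sum
  intro i _
  have := (N.pos i).le
  split_ifs with h1 h2
  · linarith
  · exact le_rfl
  · exact le_rfl
  · exact (N.pos i).le

/-- total mass to the left of `r0` -/
theorem mass_sum {c t : ι → ℝ} {a b m e α : ℝ} (N : Nrm c t a b m e α) (T : Finset (ℝ × ℝ)) {r0 : ℝ}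
    (her : e < r0) (h1 : ∀ I ∈ T, e ≤ I.1 ∧ I.2 ≤ r0)
    (h2 : ∀ I ∈ T, ∀ J ∈ T, I ≠ J → I.2 ≤ J.1 ∨ J.2 ≤ I.1) :
    m1 c t + ∑ I ∈ T, mass c t I ≤ ∑ i, if t i < r0 then c i else 0 := by
  unfold m1 mass
  rw [Finset.sum_comm, ← Finset.sum_add_distrib]
  apply Finset.sum_le_sum
  intro i _
  have hci := (N.pos i).le
  have hsum : (∑ I ∈ T, if I.1 < t i ∧ t i < I.2 then c i else 0) ≤
      if e < t i ∧ t i < r0 then c i else 0 := by
    by_cases hex : ∃ I ∈ T, I.1 < t i ∧ t i < I.2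
    · obtain ⟨I, hI, hIt⟩ := hex
      have : (∑ J ∈ T, if J.1 < t i ∧ t i < J.2 then c i else 0) =
          if I.1 < t i ∧ t i < I.2 then c i else 0 := by
        apply Finset.sum_eq_single_of_mem I hI
        intro J hJ hne
        rw [if_neg]
        rintro ⟨h3, h4⟩
        rcases h2 J hJ I hI hne with h | h <;> linarith [hIt.1, hIt.2]
      rw [this, if_pos hIt, if_pos ⟨by linarith [(h1 I hI).1, hIt.1], by linarith [(h1 I hI).2, hIt.2]⟩]
    · push Not at hex
      rw [Finset.sum_eq_zero]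
      · split_ifs
        · exact hci
        · exact le_rfl
      · intro I hI
        rw [if_neg]
        rintro ⟨h3, h4⟩
        exact absurd h4 (not_lt.2 (hex I hI h3))
  by_cases ht : t i = -1
  · have hlt : t i < r0 := by rw [ht]; linarith [N.e_lo]
    have hnot : ¬ (e < t i ∧ t i < r0) := by
      rintro ⟨h3, _⟩
      rw [ht] at h3
      linarith [N.e_lo]
    rw [if_neg hnot] at hsum
    rw [if_pos ht, if_pos hlt]
    linarith
  · rw [if_neg ht, zero_add]
    refine hsum.trans ?_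
    split_ifs with h3 h4
    · exact le_rfl
    · exact absurd h3.2 h4
    · exact hci
    · exact le_rfl

/-! ### the extra test point -/

theorem pot_extra_right {c t : ι → ℝ} (hS : Sys c t) {r0 U : ℝ} (hU : 0 < U) (hU2 : U ^ 2 = 1 + r0)
    (pr : pot c t r0 = 0) (nr : ∀ i, t i ≠ r0) :
    log 4 * (∑ i, if t i < r0 then c i else 0) ≤ pot c t (-1 - (2 * U) ^ 2) := by
  have h : pot c t (-1 - (2 * U) ^ 2) = pot c t (-1 - (2 * U) ^ 2) - pot c t r0 := by rw [pr, sub_zero]
  rw [h]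
  unfold pot
  rw [← Finset.sum_sub_distrib, Finset.mul_sum]
  apply Finset.sum_le_sum
  intro i _
  have hci := (hS.pos i).le
  have hti := (hS.mem i).1
  rw [← mul_sub]
  have e1 : log (-1 - (2 * U) ^ 2 - t i) = log (4 * U ^ 2 + (1 + t i)) := by
    rw [← log_neg_eq_log]; congr 1; ring
  rw [e1]
  have hpos : 0 < 4 * U ^ 2 + (1 + t i) := by nlinarith [sq_pos_of_pos hU]
  split_ifs with hlt
  · have h1 : 0 < r0 - t i := by linarith
    have h2 : log 4 + log (r0 - t i) ≤ log (4 * U ^ 2 + (1 + t i)) := by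
      rw [← log_mul (by norm_num) h1.ne']
      apply log_le_log (by positivity)
      rw [hU2]; linarith
    have h3 : log 4 ≤ log (4 * U ^ 2 + (1 + t i)) - log (r0 - t i) := by linarith
    calc log 4 * c i = c i * log 4 := mul_comm _ _
      _ ≤ _ := mul_le_mul_of_nonneg_left h3 hci
  · rw [mul_zero]
    apply mul_nonneg hci
    have h1 : 0 < t i - r0 := by
      have := lt_of_le_of_ne (not_lt.1 hlt) (nr i).symm
      linarith
    have e2 : log (r0 - t i) = log (t i - r0) := by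
      rw [← log_neg_eq_log]; congr 1; ring
    rw [e2, sub_nonneg]
    apply log_le_log h1
    nlinarith [sq_pos_of_pos hU]

theorem pot_extra_left {c t : ι → ℝ} (hS : Sys c t) {α U : ℝ} (hU : 0 < U) (hα : 0 < α)
    (hαU : α ≤ U ^ 2) (pl : pot c t (-1 - α) = 0) :
    m1 c t * (log 4 + log (U ^ 2 / α)) ≤ pot c t (-1 - (2 * U) ^ 2) := by
  have h : pot c t (-1 - (2 * U) ^ 2) = pot c t (-1 - (2 * U) ^ 2) - pot c t (-1 - α) := by
    rw [pl, sub_zero]
  rw [h]
  unfold pot m1
  rw [← Finset.sum_sub_distrib, Finset.sum_mul]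
  apply Finset.sum_le_sum
  intro i _
  have hci := (hS.pos i).le
  have hti := (hS.mem i).1
  rw [← mul_sub]
  have e1 : log (-1 - (2 * U) ^ 2 - t i) = log (4 * U ^ 2 + (1 + t i)) := by
    rw [← log_neg_eq_log]; congr 1; ring
  have e2 : log (-1 - α - t i) = log (α + (1 + t i)) := by
    rw [← log_neg_eq_log]; congr 1; ring
  rw [e1, e2]
  split_ifs with ht
  · rw [ht]
    have e3 : log 4 + log (U ^ 2 / α) = log (4 * U ^ 2 + (1 + -1)) - log (α + (1 + -1)) := by
      rw [show (4 * U ^ 2 + (1 + -1 : ℝ)) = 4 * U ^ 2 by ring, show (α + (1 + -1 : ℝ)) = α by ring,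
        log_div (by positivity) hα.ne', log_mul (by norm_num) (by positivity)]
      ring
    rw [e3]
  · rw [zero_mul]
    apply mul_nonneg hci
    rw [sub_nonneg]
    apply log_le_log (by linarith)
    nlinarith [sq_pos_of_pos hU]

/-! ### the parameter `σ` -/

theorem exists_sigma {k Y : ℝ} (hk : 1 < k) (hY : 0 < Y) : ∃ σ, 1 < σ ∧ yy k σ = Y := by
  have hH : 0 < H k := by unfold H; positivity
  have hs : 0 < √(H k) := sqrt_pos.2 hH
  set w : ℝ := Y / √(H k) with hw
  have hw0 : 0 < w := by positivity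
  set D : ℝ := √(w ^ 2 + 4) with hD
  have hD2 : D ^ 2 = w ^ 2 + 4 := sq_sqrt (by positivity)
  have hD0 : 0 < D := sqrt_pos.2 (by positivity)
  refine ⟨(w + D) / 2, ?_, ?_⟩
  · nlinarith
  · unfold yy
    have h1 : (w + D) / 2 - 1 / ((w + D) / 2) = w := by
      have : w + D ≠ 0 := by positivity
      field_simp
      nlinarith
    rw [h1, hw]
    field_simp

theorem one_le_SS {σ : ℝ} (hσ : 1 < σ) : 1 ≤ SS σ := by
  unfold SS
  have : 0 < σ := by linarith
  rw [le_div_iff₀ (by norm_num)]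
  have h : σ + 1 / σ - 2 = (σ - 1) ^ 2 / σ := by field_simp; ring
  have : 0 ≤ (σ - 1) ^ 2 / σ := by positivity
  linarith

end EHP
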