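import Mathlib

/-!
# Definitions for the exact value of the Erdős–Herzog–Piranian infimum (MP_28e671_an)
-/

open Real MeasureTheory Set

namespace EHP

/-- The class `𝓕`: monic polynomials of degree `n ≥ 1`, all of whose roots are real and lie in `[-1,1]`. -/
def Fam : Set (Polynomial ℝ) :=
  {f | ∃ n : ℕ, 1 ≤ n ∧ ∃ a : Fin n → ℝ, (∀ i, a i ∈ Icc (-1 : ℝ) 1) ∧
    f = ∏ i, (Polynomial.X - Polynomial.C (a i))}

/-- The unit sublevel set `E(f) = {x : |f(x)| < 1}`. -/
def sublevel (f : Polynomial ℝ) : Set ℝ := {x | |f.eval x| < 1}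

/-- `μ = inf |E(f)|` over the class `𝓕`. -/
noncomputable def mu : ℝ := sInf ((fun f => (volume (sublevel f)).toReal) '' Fam)

/-- `g_k(w) = log |(k w - 1)/(w - k)|`. -/
noncomputable def gFun (k w : ℝ) : ℝ := log |(k * w - 1) / (w - k)|

/-- `m(k) = log ((k+1)²/(2k)) / log k`. -/
noncomputable def mFun (k : ℝ) : ℝ := log ((k + 1) ^ 2 / (2 * k)) / log k

/-- Admissible triples: `1 < u < k < v`, where `u` and `v` solve `log w = m(k) g_k(w)`. -/
def Adm (k u v : ℝ) : Prop :=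
  1 < u ∧ u < k ∧ k < v ∧ log u = mFun k * gFun k u ∧ log v = mFun k * gFun k v

/-- `L(k,u,v) = (2k/(k+1)²) (v-u) (1 - 1/(uv))`. -/
noncomputable def LFun (k u v : ℝ) : ℝ := 2 * k / (k + 1) ^ 2 * (v - u) * (1 - 1 / (u * v))

/-- All values `L(k,u,v)` of admissible triples. -/
def valSet : Set ℝ := {x | ∃ k u v : ℝ, Adm k u v ∧ x = LFun k u v}

/-- The function in the stationarity equation `St_k(u) = St_k(v)`. -/
noncomputable def StFun (k w : ℝ) : ℝ :=
  ((w + 1) / (w - 1) * log k - gFun k w) * (1 - 1 / w ^ 2) /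
    (1 / w - mFun k * (k / (k * w - 1) - 1 / (w - k)))

/-- The critical system: an admissible triple with `St_k(u) = St_k(v)`, in a small explicit box. -/
def Crit (k u v : ℝ) : Prop :=
  Adm k u v ∧ StFun k u = StFun k v ∧
    (38.8869 < k ∧ k < 38.8871) ∧ (17.8618 < u ∧ u < 17.862) ∧ (55.4254 < v ∧ v < 55.4258)

end EHP
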