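import Pool.Agent.Helper52.EHP.Lower
import Pool.Agent.Helper63.EHP.Upper

/-!
MP_28e671_an: final assembly.
-/

open Real MeasureTheory Set

namespace EHP

/-- the sublevel set of a member of the class is `EE` for equal weights -/
theorem sublevel_eq {n : ℕ} (hn : 1 ≤ n) (a : Fin n → ℝ) :
    sublevel (∏ i, (Polynomial.X - Polynomial.C (a i))) = EE (fun _ : Fin n => (1 : ℝ) / n) a := by
  have hn' : (0 : ℝ) < n := by exact_mod_cast hn
  ext x
  unfold sublevel EE
  simp only [mem_ofPred_eq]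
  have he : (∏ i, (Polynomial.X - Polynomial.C (a i))).eval x = ∏ i, (x - a i) := by
    rw [Polynomial.eval_prod]; simp
  rw [he]
  by_cases hx : ∃ i, x = a i
  · obtain ⟨i, hi⟩ := hx
    have h0 : ∏ i, (x - a i) = 0 := Finset.prod_eq_zero (Finset.mem_univ i) (by rw [hi, sub_self])
    rw [h0]
    simp only [abs_zero, zero_lt_one, true_iff]
    exact Or.inl ⟨i, hi⟩
  · have hne : ∀ i, x - a i ≠ 0 := fun i h => hx ⟨i, by linarith⟩
    have hp : ∏ i, (x - a i) ≠ 0 := Finset.prod_ne_zero_iff.2 fun i _ => hne i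
    have hlog : pot (fun _ : Fin n => (1 : ℝ) / n) a x = (1 / n) * log |∏ i, (x - a i)| := by
      unfold pot
      rw [log_abs, log_prod (fun i _ => hne i), Finset.mul_sum]
    constructor
    · intro h
      right
      rw [hlog]
      have : log |∏ i, (x - a i)| < 0 := log_neg (abs_pos.2 hp) h
      have h1 : (0 : ℝ) < 1 / n := by positivity
      nlinarith
    · rintro (h | h)
      · exact absurd h hx
      · rw [hlog] at h
        by_contra hc
        push Not at hc
        have := log_nonneg hc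
        have h1 : (0 : ℝ) < 1 / n := by positivity
        nlinarith

theorem sys_of {n : ℕ} (hn : 1 ≤ n) {a : Fin n → ℝ} (ha : ∀ i, a i ∈ Icc (-1 : ℝ) 1) :
    Sys (fun _ : Fin n => (1 : ℝ) / n) a := by
  have hn' : (0 : ℝ) < n := by exact_mod_cast hn
  refine ⟨fun i => by positivity, ?_, ha⟩
  simp only [Finset.sum_const, Finset.card_univ, Fintype.card_fin, nsmul_eq_mul]
  field_simp

theorem fam_nonempty : Fam.Nonempty :=
  ⟨_, 1, le_rfl, fun _ => 0, fun _ => by simp, rfl⟩

theorem img_nonempty : ((fun f => (volume (sublevel f)).toReal) '' Fam).Nonempty :=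
  fam_nonempty.image _

theorem img_bdd : BddBelow ((fun f => (volume (sublevel f)).toReal) '' Fam) :=
  ⟨0, by rintro _ ⟨f, _, rfl⟩; exact ENNReal.toReal_nonneg⟩

theorem mu_le {k u v : ℝ} (hk : 1 < k) (hu : 1 < u) (huk : u < k) (hkv : k < v)
    (eu : log u * log k = Lam k * gr k u) (ev : log v * log k = Lam k * gr k v) :
    mu ≤ X k v - X k u := by
  apply le_of_forall_pos_le_add
  intro ε hε
  obtain ⟨f, hf, h⟩ := upper hk hu huk hkv eu ev hε
  exact (csInf_le img_bdd ⟨f, hf, rfl⟩).trans h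

theorem le_mu {k u₀ v₀ : ℝ} (hk1 : 38.8 < k) (hk2 : k < 39) (In : Inputs k u₀ v₀) :
    X k v₀ - X k u₀ ≤ mu := by
  apply le_csInf img_nonempty
  rintro _ ⟨f, ⟨n, hn, a, ha, rfl⟩, rfl⟩
  simp only
  rw [sublevel_eq hn]
  exact lower (sys_of hn ha) hk1 hk2 In

theorem gr_neg {k v : ℝ} (h : k < v) : gr k v = log ((k * v - 1) / (v - k)) := by
  unfold gr
  rw [← log_neg_eq_log]
  congr 1
  have : v - k ≠ 0 := by linarith
  have : k - v ≠ 0 := by linarith
  field_simp
  ring

theorem X_sub' {k u v : ℝ} (hu : 0 < u) (hv : 0 < v) :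
    X k v - X k u = 2 * k / (k + 1) ^ 2 * (v - u) * (1 - 1 / (u * v)) := by
  rw [X_sub hu.ne' hv.ne']
  rfl

theorem gFun_eq (k w : ℝ) : gFun k w = gr k w := by
  unfold gFun gr
  rw [log_abs, ← log_neg_eq_log]
  congr 1
  rw [← div_neg, neg_sub]

theorem mFun_eq (k : ℝ) : mFun k = Lam k / log k := rfl

theorem eq_iff {k w : ℝ} (hk : 1 < k) :
    log w = mFun k * gFun k w ↔ log w * log k = Lam k * gr k w := by
  have hl : log k ≠ 0 := (log_pos hk).ne'
  rw [gFun_eq, mFun_eq]
  constructor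
  · intro h; rw [h]; field_simp
  · intro h; field_simp; exact h

/-- `mu` is a lower bound of `valSet` -/
theorem mu_le_valSet : mu ∈ lowerBounds valSet := by
  rintro _ ⟨k, u, v, ⟨hu, huk, hkv, eu, ev⟩, rfl⟩
  have hk : 1 < k := by linarith
  unfold LFun
  rw [← X_sub' (by linarith) (by linarith)]
  exact mu_le hk hu huk hkv ((eq_iff hk).1 eu) ((eq_iff hk).1 ev)

theorem PP_v {k v m : ℝ} (h1 : 38.8869 < k) (h2 : k < 38.8871) (h3 : 55.4254 < v) (h4 : v < 55.4258)
    (hm : m = Lam k / log k) : 0 < PP k m v := by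
  subst hm
  unfold PP Lam
  have : IA.Enc k (some (38.8869, 38.8871)) := IA.enc_of _ _ (by norm_num; linarith) (by norm_num; linarith)
  have : IA.Enc v (some (55.4254, 55.4258)) := IA.enc_of _ _ (by norm_num; linarith) (by norm_num; linarith)
  exact IA.lt_of (by decide +kernel)

theorem PP_u {k u m : ℝ} (h1 : 38.8869 < k) (h2 : k < 38.8871) (h3 : 17.8618 < u) (h4 : u < 17.862)
    (hm : m = Lam k / log k) : PP k m u < 0 := by
  subst hm
  unfold PP Lam
  have : IA.Enc k (some (38.8869, 38.8871)) := IA.enc_of _ _ (by norm_num; linarith) (by norm_num; linarith)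
  have : IA.Enc u (some (17.8618, 17.862)) := IA.enc_of _ _ (by norm_num; linarith) (by norm_num; linarith)
  exact IA.lt_of (by decide +kernel)

theorem L_gt {k u v : ℝ} (h1 : 38.8869 < k) (h2 : k < 38.8871) (h3 : 17.8618 < u) (h4 : u < 17.862)
    (h5 : 55.4254 < v) (h6 : v < 55.4258) : 1.8344 < LFun k u v ∧ LFun k u v < 1.8345 := by
  unfold LFun
  have : IA.Enc k (some (38.8869, 38.8871)) := IA.enc_of _ _ (by norm_num; linarith) (by norm_num; linarith)
  have : IA.Enc u (some (17.8618, 17.862)) := IA.enc_of _ _ (by norm_num; linarith) (by norm_num; linarith)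
  have : IA.Enc v (some (55.4254, 55.4258)) := IA.enc_of _ _ (by norm_num; linarith) (by norm_num; linarith)
  exact ⟨IA.lt_of (by decide +kernel), IA.lt_of (by decide +kernel)⟩

theorem crit_iff {k u v : ℝ} : Crit k u v ↔ Opt k u v := by
  have key : ∀ {k u v : ℝ}, 38.8869 < k → k < 38.8871 → 17.8618 < u → u < 17.862 → 55.4254 < v →
      v < 55.4258 → (StFun k u = StFun k v ↔
        DD k v * XX k v * PP k (Lam k / log k) u = DD k u * XX k u * PP k (Lam k / log k) v) := by
    intro k u v h1 h2 h3 h4 h5 h6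
    have hpu := PP_u h1 h2 h3 h4 rfl
    have hpv := PP_v h1 h2 h5 h6 rfl
    have hH := H_pos'' (by linarith : 1 < k)
    unfold StFun
    rw [gFun_eq, gFun_eq, mFun_eq]
    change DD k u * (1 - 1 / u ^ 2) / PP k (Lam k / log k) u =
      DD k v * (1 - 1 / v ^ 2) / PP k (Lam k / log k) v ↔ _
    rw [div_eq_div_iff hpu.ne hpv.ne']
    unfold XX
    constructor
    · intro h
      linear_combination (-(H k)) * h
    · intro h
      have : H k * (DD k u * (1 - 1 / u ^ 2) * PP k (Lam k / log k) v) =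
          H k * (DD k v * (1 - 1 / v ^ 2) * PP k (Lam k / log k) u) := by linear_combination (-1) * h
      exact mul_left_cancel₀ hH.ne' this
  constructor
  · rintro ⟨⟨hu, huk, hkv, eu, ev⟩, hst, ⟨h1, h2⟩, ⟨h3, h4⟩, ⟨h5, h6⟩⟩
    have hk : 1 < k := by linarith
    exact ⟨h1, h2, h3, h4, h5, h6, (eq_iff hk).1 eu, (eq_iff hk).1 ev, (key h1 h2 h3 h4 h5 h6).1 hst⟩
  · rintro ⟨h1, h2, h3, h4, h5, h6, eu, ev, hst⟩
    have hk : 1 < k := by linarith
    exact ⟨⟨by linarith, by linarith, by linarith, (eq_iff hk).2 eu, (eq_iff hk).2 ev⟩,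
      (key h1 h2 h3 h4 h5 h6).2 hst, ⟨h1, h2⟩, ⟨h3, h4⟩, ⟨h5, h6⟩⟩

theorem mu_eq_of {k u v : ℝ} (O : Opt k u v) (In : Inputs k u v) : mu = LFun k u v := by
  have hk : 1 < k := by linarith [O.k1]
  have hu : 1 < u := by linarith [O.u1]
  have huk : u < k := by linarith [O.k1, O.u2]
  have hkv : k < v := by linarith [O.k2, O.v1]
  unfold LFun
  rw [← X_sub' (by linarith) (by linarith)]
  exact le_antisymm (mu_le hk hu huk hkv O.eu O.ev)
    (le_mu (by linarith [O.k1]) (by linarith [O.k2]) In)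

/-- final statement, from the numerical inputs -/
theorem final_of (hex : ∃ k u v, Opt k u v) (In : ∀ k u v, Opt k u v → Inputs k u v) :
    (∃ k u v, Crit k u v) ∧ (∀ k u v, Crit k u v → mu = LFun k u v) ∧ IsLeast valSet mu ∧
      1.8344 < mu ∧ mu < 1.8345 := by
  have h2 : ∀ k u v, Crit k u v → mu = LFun k u v := fun k u v hC =>
    mu_eq_of (crit_iff.1 hC) (In k u v (crit_iff.1 hC))
  obtain ⟨k, u, v, O⟩ := hex
  have hC : Crit k u v := crit_iff.2 O
  have hmu := h2 k u v hC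
  have hL := L_gt O.k1 O.k2 O.u1 O.u2 O.v1 O.v2
  rw [← hmu] at hL
  exact ⟨⟨k, u, v, hC⟩, h2, ⟨⟨k, u, v, hC.1, hmu⟩, mu_le_valSet⟩, hL.1, hL.2⟩

end EHP
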