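import Pool.Agent.Helper52.EHP.Basic

/-!
The optimal parameters (critical point of the one-parameter family).
-/

open Real

namespace EHP

/-- `D(w) = κ_w log k - g(w)` -/
noncomputable def DD (k w : ℝ) : ℝ := (w + 1) / (w - 1) * log k - gr k w
/-- `d/dw (log w - m g(w))` -/
noncomputable def PP (k m w : ℝ) : ℝ := 1 / w - m * (k / (k * w - 1) - 1 / (w - k))
/-- `X' = H (1 - 1/w²)` -/
noncomputable def XX (k w : ℝ) : ℝ := H k * (1 - 1 / w ^ 2)

/-- the critical triple `(k, u, v)` -/
structure Opt (k u v : ℝ) : Prop where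
  k1 : 38.8869 < k
  k2 : k < 38.8871
  u1 : 17.8618 < u
  u2 : u < 17.862
  v1 : 55.4254 < v
  v2 : v < 55.4258
  eu : log u * log k = Lam k * gr k u
  ev : log v * log k = Lam k * gr k v
  st : DD k v * XX k v * PP k (Lam k / log k) u = DD k u * XX k u * PP k (Lam k / log k) v

end EHP
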