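import Pool.Agent.Helper52.EHP.Chain
import Pool.Agent.Helper52.EHP.Opt
import Pool.Agent.Helper53.EHP.Star
import Pool.Agent.Helper84.EHP.NumN
import Pool.Agent.Helper6.E38.Red
import Pool.Agent.Helper7.IA.Basic

/-!
Lower bound of MP_28e671_an: assembly.
-/

open Real MeasureTheory Set

namespace EHP

variable {ι : Type*} [Fintype ι]

/-- chain with STAR -/
theorem chain {c t : ι → ℝ} {a b m e α : ℝ} (N : Nrm c t a b m e α) {k u v wa wb : ℝ} (hk : 1 < k)
    (hu : 1 < u) (huk : u < k) (hkv : k < v) (ha : a = X k u) (hb : b = X k v) (hq : 8 * H k - 1 ≤ a)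
    (hwa : 0 ≤ wa) (hwb : 0 ≤ wb)
    (hB : HB k (rho k u v wa wb) m a) (hC : HC k (rho k u v wa wb) m a) :
    b - a - wb * Phi k m v - wa * Phi k m u ≤ (volume (EE c t)).toReal := by
  have hρ : 0 ≤ rho k u v wa wb := by
    unfold rho
    have h1 := ss_pos' hk hu
    have h2 := ss_pos' hk (by linarith : 1 < v)
    have := pi_pos
    positivity
  have hs : StarProp c t a k m (rho k u v wa wb) (-(wb * Phi k m v) - wa * Phi k m u) := by
    intro σ hσ
    exact star N hk hu huk hkv ha hb hq hwa hwb hσ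
  have := chain_of_star N hk hρ hs hB hC
  linarith

theorem X_sub {k w1 w2 : ℝ} (h1 : w1 ≠ 0) (h2 : w2 ≠ 0) :
    X k w2 - X k w1 = H k * (w2 - w1) * (1 - 1 / (w1 * w2)) := by
  unfold X
  field_simp
  ring

theorem X_self52 {k : ℝ} (hk : 1 < k) : X k k = 1 := by
  unfold X H
  have : k + 1 ≠ 0 := by linarith
  field_simp
  ring

theorem X_one (k : ℝ) : X k 1 = 4 * H k - 1 := by
  unfold X; ring

theorem H_pos'' {k : ℝ} (hk : 1 < k) : 0 < H k := by unfold H; positivity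

theorem X_lt52 {k w1 w2 : ℝ} (hk : 1 < k) (h1 : 1 ≤ w1) (h12 : w1 < w2) : X k w1 < X k w2 := by
  have hH := H_pos'' hk
  have h := X_sub (k := k) (w1 := w1) (w2 := w2) (by linarith) (by linarith)
  have h3 : 0 < 1 - 1 / (w1 * w2) := by
    have : 1 < w1 * w2 := by nlinarith
    rw [sub_pos, div_lt_one (by linarith)]
    exact this
  have : 0 < H k * (w2 - w1) * (1 - 1 / (w1 * w2)) := by
    have : 0 < w2 - w1 := by linarith
    positivity
  linarith

theorem exists_w {k x : ℝ} (hk : 1 < k) (hx : 4 * H k - 1 < x) : ∃ w, 1 < w ∧ X k w = x := by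
  have hH := H_pos'' hk
  set c : ℝ := (x + 1) / H k - 2 with hc
  have hc2 : 2 < c := by
    have : 4 < (x + 1) / H k := by
      rw [lt_div_iff₀ hH]; linarith
    linarith
  set D : ℝ := √(c ^ 2 - 4) with hD
  have hD2 : D ^ 2 = c ^ 2 - 4 := sq_sqrt (by nlinarith)
  have hD0 : 0 < D := sqrt_pos.2 (by nlinarith)
  refine ⟨(c + D) / 2, by linarith, ?_⟩
  unfold X
  have hne : c + D ≠ 0 := by linarith
  have h1 : ((c + D) / 2 + 1) ^ 2 / ((c + D) / 2) = c + 2 := by
    field_simp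
    nlinarith
  rw [mul_div_assoc, h1, hc]
  field_simp
  ring

/-- `w`-coordinates of the endpoints -/
theorem exists_uv {k a b : ℝ} (hk : 1 < k) (ha : 4 * H k - 1 < a) (ha1 : a < 1) (hb : 1 < b) :
    ∃ u v, 1 < u ∧ u < k ∧ k < v ∧ a = X k u ∧ b = X k v := by
  obtain ⟨u, hu, hau⟩ := exists_w hk ha
  obtain ⟨v, hv, hbv⟩ := exists_w hk (by linarith : 4 * H k - 1 < b)
  refine ⟨u, v, hu, ?_, ?_, hau.symm, hbv.symm⟩
  · by_contra hc
    push Not at hc
    rcases eq_or_lt_of_le hc with h | h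
    · rw [← h, X_self52 hk] at hau; linarith
    · have := X_lt52 hk hk.le h
      rw [X_self52 hk] at this; linarith
  · by_contra hc
    push Not at hc
    rcases eq_or_lt_of_le hc with h | h
    · rw [h, X_self52 hk] at hbv; linarith
    · have := X_lt52 hk hv.le h
      rw [X_self52 hk] at this; linarith

theorem hb_ineq {c t : ι → ℝ} {a b m e α : ℝ} (N : Nrm c t a b m e α) :
    0 ≤ m * log (b - 1) + (1 - m) * log (b + 1) := by
  have hb := N.b_lo
  have ha := N.a_hi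
  have hm : m = ∑ i, if t i = 1 then c i else 0 := N.mass
  have h : pot c t b ≤ ∑ i, ((if t i = 1 then c i else 0) * log (b - 1) +
      (c i - if t i = 1 then c i else 0) * log (b + 1)) := by
    unfold pot
    apply Finset.sum_le_sum
    intro i _
    have hci := (N.pos i).le
    have h1 := (N.mem i).1
    split_ifs with h2
    · rw [h2]; linarith
    · have h3 : t i < a := (N.split i).resolve_right h2
      have : log (b - t i) ≤ log (b + 1) := log_le_log (by linarith) (by linarith)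
      nlinarith
  rw [N.pb, Finset.sum_add_distrib, ← Finset.sum_mul, ← Finset.sum_mul, Finset.sum_sub_distrib, N.sum,
    ← hm] at h
  exact h

/-- `b ≥ 1.41` -/
theorem b_ge52 {m b : ℝ} (hm : 1 / 2 ≤ m) (hb1 : 1 < b)
    (hb : 0 ≤ m * log (b - 1) + (1 - m) * log (b + 1)) : 1.41 ≤ b := by
  by_contra hc
  push Not at hc
  have h1 : log (b - 1) < 0 := log_neg (by linarith) (by linarith)
  have h2 : 0 < log (b + 1) := log_pos (by linarith)
  have h3 : log (b - 1) + log (b + 1) < 0 := by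
    rw [← log_mul (by linarith) (by linarith)]
    apply log_neg
    · nlinarith
    · nlinarith
  nlinarith

theorem b_big {m b : ℝ} (hm : 0.86 ≤ m) (hm1 : m ≤ 1) (hb1 : 1 < b) (hb : b ≤ 1.8345) :
    m * log (b - 1) + (1 - m) * log (b + 1) < 0 := by
  have h1 : log (b - 1) ≤ log 0.8345 := log_le_log (by linarith) (by linarith)
  have h2 : log (b + 1) ≤ log 2.8345 := log_le_log (by linarith) (by linarith)
  have h3 : log (0.8345 : ℝ) < -0.1809 := IA.lt_of (by decide +kernel)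
  have h4 : log (2.8345 : ℝ) < 1.0419 := IA.lt_of (by decide +kernel)
  have h5 : m * log (b - 1) ≤ m * (-0.1809) := mul_le_mul_of_nonneg_left (by linarith) (by linarith)
  have h6 : (1 - m) * log (b + 1) ≤ (1 - m) * 1.0419 := mul_le_mul_of_nonneg_left (by linarith) (by linarith)
  linarith

theorem H_le52 {k : ℝ} (hk : 38.8 ≤ k) : H k ≤ 0.05 := by
  unfold H
  rw [div_le_iff₀ (by positivity)]
  nlinarith

theorem m_le_one {c t : ι → ℝ} {a b m e α : ℝ} (N : Nrm c t a b m e α) : m ≤ 1 := by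
  have := mass_nonneg N.toSys (a, b)
  have h : m ≤ ∑ i, c i := by
    rw [N.mass]
    apply Finset.sum_le_sum
    intro i _
    split_ifs
    · exact le_rfl
    · exact (N.pos i).le
  rw [N.sum] at h
  exact h

/-- the numerical inputs still to be supplied by M8 and M10 -/
structure Inputs (k u₀ v₀ : ℝ) : Prop where
  numB : ∀ {k ρ m a : ℝ}, 38.8 ≤ k → k ≤ 39 → 0 ≤ ρ →
    ((0.5 ≤ m ∧ m ≤ 0.7 ∧ ρ ≤ 0.96 ∧ -0.4205 ≤ a) ∨ (0.7 ≤ m ∧ m ≤ 0.78 ∧ ρ ≤ 0.86 ∧ -0.177 ≤ a) ∨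
      (0.78 ≤ m ∧ m ≤ 0.8 ∧ ρ ≤ 0.82 ∧ -0.083 ≤ a) ∨ (0.8 ≤ m ∧ m ≤ 0.82 ∧ ρ ≤ 0.73 ∧ -0.06 ≤ a) ∨
      (0.82 ≤ m ∧ m ≤ 0.86 ∧ ρ ≤ 0.66 ∧ -0.037 ≤ a)) → HB k ρ m a ∧ HC k ρ m a
  sharp : ∀ {m u v : ℝ}, 0.78 ≤ m → m ≤ 0.86 → 1 < u → u < k → k < v → X k u ≤ 0 →
    X k v - X k u < 1.8345 → 0 ≤ m * log (X k v - 1) + (1 - m) * log (X k v + 1) →
    ∃ wa wb, 0 ≤ wa ∧ 0 ≤ wb ∧
      X k v₀ - X k u₀ ≤ X k v - X k u - wb * Phi k m v - wa * Phi k m u ∧
      ((m ≤ 0.8 ∧ rho k u v wa wb ≤ 0.82 ∧ -0.083 ≤ X k u) ∨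
        (0.8 ≤ m ∧ m ≤ 0.82 ∧ rho k u v wa wb ≤ 0.73 ∧ -0.06 ≤ X k u) ∨
        (0.82 ≤ m ∧ rho k u v wa wb ≤ 0.66 ∧ -0.037 ≤ X k u))
  opt_lt : X k v₀ - X k u₀ < 1.8345

theorem rho_nonneg {k u v wa wb : ℝ} (hk : 1 < k) (hu : 1 < u) (hv : 1 < v) (hwa : 0 ≤ wa)
    (hwb : 0 ≤ wb) : 0 ≤ rho k u v wa wb := by
  unfold rho
  have h1 := ss_pos' hk hu
  have h2 := ss_pos' hk hv
  have := pi_pos
  positivity

theorem lower_nrm {c t : ι → ℝ} {a b m e α : ℝ} (N : Nrm c t a b m e α) {k u₀ v₀ : ℝ}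
    (hk1 : 38.8 < k) (hk2 : k < 39) (In : Inputs k u₀ v₀) :
    X k v₀ - X k u₀ ≤ (volume (EE c t)).toReal := by
  have hlt := In.opt_lt
  -- volume ≥ b - a
  have hvol : b - a ≤ (volume (EE c t)).toReal := by
    obtain ⟨S, h1, h2, h3⟩ := components N
    have hv := volume_ge N S
      (fun I hI => ⟨(h1 I hI).1, (h1 I hI).2.1, (h1 I hI).2.2.1, (h1 I hI).2.2.2.2.2.2.2⟩) h2
    have h4 : 0 ≤ ∑ I ∈ S, (I.2 - I.1) := Finset.sum_nonneg fun I hI => by linarith [(h1 I hI).2.1]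
    linarith [N.e_lo, N.α_lo]
  by_cases hba : 1.8345 ≤ b - a
  · linarith
  push Not at hba
  have hb := hb_ineq N
  have hm := N.half
  have ha0 := N.a_hi
  have hb1 := N.b_lo
  have hb141 := b_ge52 hm hb1 hb
  have ha : -0.4245 < a := by linarith
  rcases le_or_gt m 0.78 with hm78 | hm78
  · have hH : H 39 ≤ 0.05 := H_le52 (by norm_num)
    obtain ⟨u, v, hu, huk, hkv, hau, hbv⟩ := exists_uv (k := 39) (by norm_num) (a := a) (b := b)
      (by linarith) (by linarith) hb1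
    have hm' : (0.5 : ℝ) ≤ m := by norm_num; linarith
    obtain ⟨wa, wb, hwa, hwb, h1, h2⟩ := numN (m := m) (u := u) (v := v) hm' hm78 hu huk hkv
      (by rw [← hau]; exact ha0) (by rw [← hau, ← hbv]; exact hba) (by rw [← hbv]; exact hb)
    have hρ : 0 ≤ rho 39 u v wa wb := rho_nonneg (by norm_num) hu (by linarith) hwa hwb
    have hBC : HB 39 (rho 39 u v wa wb) m a ∧ HC 39 (rho 39 u v wa wb) m a := by
      apply In.numB (by norm_num) le_rfl hρ
      rcases h2 with ⟨h3, h4, h5⟩ | ⟨h3, h4, h5⟩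
      · left; exact ⟨hm', h3, h4, by rw [hau]; exact h5⟩
      · right; left; exact ⟨h3, hm78, h4, by rw [hau]; exact h5⟩
    have := chain N (by norm_num) hu huk hkv hau hbv (by linarith) hwa hwb hBC.1 hBC.2
    rw [← hau, ← hbv] at h1
    linarith
  · rcases le_or_gt m 0.86 with hm86 | hm86
    · have hH : H k ≤ 0.05 := H_le52 hk1.le
      have hk : 1 < k := by linarith
      obtain ⟨u, v, hu, huk, hkv, hau, hbv⟩ := exists_uv (k := k) hk (a := a) (b := b)
        (by linarith) (by linarith) hb1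
      obtain ⟨wa, wb, hwa, hwb, h1, h2⟩ := In.sharp hm78.le hm86 hu huk hkv
        (by rw [← hau]; exact ha0) (by rw [← hau, ← hbv]; exact hba) (by rw [← hbv]; exact hb)
      have hρ : 0 ≤ rho k u v wa wb := rho_nonneg hk hu (by linarith) hwa hwb
      have hBC : HB k (rho k u v wa wb) m a ∧ HC k (rho k u v wa wb) m a := by
        apply In.numB hk1.le hk2.le hρ
        rcases h2 with ⟨h3, h4, h5⟩ | ⟨h3, h3', h4, h5⟩ | ⟨h3, h4, h5⟩
        · right; right; left; exact ⟨hm78.le, h3, h4, by rw [hau]; exact h5⟩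
        · right; right; right; left; exact ⟨h3, h3', h4, by rw [hau]; exact h5⟩
        · right; right; right; right; exact ⟨h3, hm86, h4, by rw [hau]; exact h5⟩
      have := chain N hk hu huk hkv hau hbv (by linarith) hwa hwb hBC.1 hBC.2
      rw [← hau, ← hbv] at h1
      linarith
    · exfalso
      have := b_big hm86.le (m_le_one N) hb1 (by linarith : b ≤ 1.8345)
      linarith

theorem lower {c t : ι → ℝ} (S : Sys c t) {k u₀ v₀ : ℝ} (hk1 : 38.8 < k) (hk2 : k < 39)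
    (In : Inputs k u₀ v₀) : X k v₀ - X k u₀ ≤ (volume (EE c t)).toReal := by
  rcases reduce S with h | ⟨t', a, b, m, e, α, N, h⟩
  · have := In.opt_lt
    linarith
  · exact (lower_nrm N hk1 hk2 In).trans h

end EHP
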